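import Pool.Agent.Helper37.Arb.Goals

/-!
Packet ARB-SEQMUL (MP_2b0227_gt).
-/

namespace Pool.Agent.Helper56.Arb

open Pool.Agent.Helper37.Arb Polynomial

theorem seq_natCast (p : ℤ[X]) (n : ℕ) : seq p (n : ℤ) = (p.coeff n : ℝ) := by
  simp [seq]

theorem seq_of_neg (p : ℤ[X]) {i : ℤ} (hi : i < 0) : seq p i = 0 := by
  simp [seq, not_le.mpr hi]

theorem seq_finite (p : ℤ[X]) : (Function.support (seq p)).Finite := by
  refine Set.Finite.subset (Set.finite_Icc (0 : ℤ) (p.natDegree : ℤ)) ?_
  intro i hi
  rw [Function.mem_support] at hi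
  rcases lt_or_ge i 0 with h | h
  · exact absurd (seq_of_neg p h) hi
  · obtain ⟨n, rfl⟩ := Int.eq_ofNat_of_zero_le h
    refine ⟨h, ?_⟩
    by_contra hn
    apply hi
    have hn' : p.natDegree < n := by
      have := not_le.mp hn
      exact_mod_cast this
    rw [seq_natCast, Polynomial.coeff_eq_zero_of_natDegree_lt hn']
    simp

theorem seq_mul (p q : ℤ[X]) : seq (p * q) = conv (seq p) (seq q) := by
  funext i
  unfold conv
  rcases lt_or_ge i 0 with h | h
  · rw [seq_of_neg _ h]
    symm
    apply finsum_eq_zero_of_forall_eq_zero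
    intro j
    rcases lt_or_ge j 0 with hj | hj
    · rw [seq_of_neg p hj, zero_mul]
    · rw [seq_of_neg q (by omega : i - j < 0), mul_zero]
  · obtain ⟨n, rfl⟩ := Int.eq_ofNat_of_zero_le h
    rw [finsum_eq_sum_of_support_subset (s := (Finset.range (n + 1)).map Nat.castEmbedding)]
    · rw [Finset.sum_map, seq_natCast, Polynomial.coeff_mul,
        Finset.Nat.sum_antidiagonal_eq_sum_range_succ (fun a b => p.coeff a * q.coeff b),
        Int.cast_sum]
      refine Finset.sum_congr rfl fun k hk => ?_
      have hk' : k ≤ n := by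
        have := Finset.mem_range.mp hk
        omega
      have h1 : ((n : ℕ) : ℤ) - (Nat.castEmbedding k : ℤ) = ((n - k : ℕ) : ℤ) := by
        simp [Nat.cast_sub hk']
      rw [h1, seq_natCast]
      have h2 : (Nat.castEmbedding k : ℤ) = (k : ℤ) := rfl
      rw [h2, seq_natCast, Int.cast_mul]
    · intro j hj
      rw [Function.mem_support] at hj
      rcases lt_or_ge j 0 with hj0 | hj0
      · exact absurd (by rw [seq_of_neg p hj0, zero_mul]) hj
      · rcases lt_or_ge ((n : ℤ) - j) 0 with hj1 | hj1
        · exact absurd (by rw [seq_of_neg q hj1, mul_zero]) hj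
        · obtain ⟨m, rfl⟩ := Int.eq_ofNat_of_zero_le hj0
          rw [Finset.coe_map]
          refine ⟨m, ?_, rfl⟩
          simp only [Finset.coe_range, Set.mem_Iio]
          omega

theorem seqMul : GoalSeqMul := by
  refine ⟨seq_finite, seq_mul, ?_, ?_, ?_⟩
  · intro p q
    funext i
    simp only [seq, Pi.add_apply]
    split_ifs
    · simp
    · simp
  · intro p i
    rcases lt_or_ge i 0 with h | h
    · rw [seq_of_neg _ h, seq_of_neg _ (by omega : i - 1 < 0)]
    · obtain ⟨n, rfl⟩ := Int.eq_ofNat_of_zero_le h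
      rw [seq_natCast]
      rcases n with _ | n
      · rw [Polynomial.coeff_X_mul_zero, seq_of_neg _ (by simp)]
        simp
      · rw [Polynomial.coeff_X_mul]
        have : ((n + 1 : ℕ) : ℤ) - 1 = (n : ℤ) := by push_cast; ring
        rw [this, seq_natCast]
  · intro i
    rcases lt_or_ge i 0 with h | h
    · rw [seq_of_neg _ h]
      simp [h.ne]
    · obtain ⟨n, rfl⟩ := Int.eq_ofNat_of_zero_le h
      rw [seq_natCast, Polynomial.coeff_one]
      rcases n with _ | n
      · simp
      · have h1 : ((n + 1 : ℕ) : ℤ) ≠ 0 := by positivity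
        rw [if_neg h1]
        simp

end Pool.Agent.Helper56.Arb
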